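import Pool.Agent.Run7.h282.TS.LOW
import Pool.Agent.Run7.h99.TS.COV
import Pool.Agent.Run7.h99.TS.LIM
import Pool.Agent.Run7.h594.TS.BLOW
import Pool.Agent.Run7.h594.TS.NUM

/-!
# MP_ff43e2_co, Q1 (partial): `t_*(j-1) ≤ (C r log s)^(1/(r-s)) t_*(j)` for some `j` in `(s, r]`

`T n k r` is the least number of edges of an `r`-graph on `n` vertices in which every set of `k` vertices
contains an edge (independence number less than `k`), `t k r` the limit superior (the limit, since the ratio is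
nondecreasing) of `T n k r / C(n, r)`, and `tstar r` the infimum over `k > r` of
`t_*(k, r) = (k - 1) ^ (r - 1) / r! * t(k, r)`. The definitions are in `Pool/Agent/Run7/h282/TS/Iface.lean`.

The proof: `1 / (6 r) ≤ t_*(r)` and `t_*(s) ≤ C log s` (the result `LogBound` for MP_ea5d3c_co).
-/

set_option autoImplicit false

namespace Pool.Agent.Results.MP_ff43e2_co.NearMonotone

open Run7.h282.TS

/-- There is a constant `C > 0` such that for all `2 ≤ s < r` there is `j` with `s < j ≤ r` and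
`t_*(j-1) ≤ (C r log s)^(1/(r-s)) t_*(j)`. -/
theorem result : ∃ C : ℝ, 0 < C ∧ ∀ s r : ℕ, 2 ≤ s → s < r →
    ∃ j : ℕ, s < j ∧ j ≤ r ∧
      tstar (j - 1) ≤ (C * r * Real.log s) ^ ((1 : ℝ) / ((r : ℝ) - s)) * tstar j :=
  near_mono (goal_of Run7.h99.TS.t_COV Run7.h594.TST.t_BLOW Run7.h99.TS.t_LIM Run7.h594.TST.t_NUM)

end Pool.Agent.Results.MP_ff43e2_co.NearMonotone
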